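import Mathlib
import Pool.Agent.W161.LF.Asm
import Pool.Agent.TH863.LQ.Tw
import Pool.Agent.Q51.Grid.Bip

set_option autoImplicit false

/-!
# Infinite grids of quadratic characters without real zeros in `(0,1)`

There are infinite sets `A`, `B` of primitive quadratic Dirichlet characters, in any two classes with
prescribed parity and prescribed values `1`, `-1` at finitely many primes (among them `2`), such that
for ALL `χ ∈ A` and ALL `ψ ∈ B` the three functions `L(s,χ)`, `L(s,ψ)`, `L(s,χψ)` are positive on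
`(0,1)`. Moreover, any finitely many of the twists by elements of `B` are positive at the same time for
a positive proportion of all characters (at infinitely many heights).

Proof. By the starting files (`Pool.Agent.TH863.LQ.main1`) for each fixed twist `L(s,χψ)` is positive
for at least `0.8649` of the characters `χ` of a class. It is shown that a relation between two sets
all of whose sections have lower density at least `δ > 1/2` contains an infinite grid
(`Pool.Agent.Q51.Grid.grid`), by two applications of Bergelson's intersectivity lemma, transferred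
from measures to densities (`Pool.Agent.Q51.Grid.inter`).
-/

namespace Pool.Agent.Results.MP_0016c7_nt.InfiniteGrids

open Filter Topology

/-- A modulus and a Dirichlet character modulo it. -/
abbrev Char : Type := Σ N : ℕ, DirichletCharacter ℂ N

/-- The nontrivial primitive quadratic Dirichlet characters `χ` such that `χ(-1) = s` and
`χ(p) = c p` for all `p ∈ S`. -/
def Family (S : Finset ℕ) (c : ℕ → ℤ) (s : ℤ) : Set Char :=
  {p | p.1 ≠ 0 ∧ p.2.IsPrimitive ∧ p.2 ^ 2 = 1 ∧ p.2 ≠ 1 ∧ p.2 (-1) = (s : ℂ) ∧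
    ∀ q ∈ S, p.2 (q : ZMod p.1) = (c q : ℂ)}

/-- The product `χψ`, a character modulo the least common multiple of the two moduli. -/
noncomputable def twist (p Q : Char) : Char := ⟨Nat.lcm p.1 Q.1, p.2.mul Q.2⟩

/-- `L(s,χ)` is real and positive for every real `s` with `0 < s < 1`. -/
def Positive (p : Char) : Prop :=
  ∃ _ : NeZero p.1, ∀ s : ℝ, 0 < s → s < 1 →
    (DirichletCharacter.LFunction p.2 (s : ℂ)).im = 0 ∧
    0 < (DirichletCharacter.LFunction p.2 (s : ℂ)).re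

/-- `ψ` is a primitive character with `ψ² = 1` (the trivial character modulo `1` is allowed) whose
conductor is odd and divisible by no prime of `S`. -/
def Twister (S : Finset ℕ) (Q : Char) : Prop :=
  Odd Q.1 ∧ Q.2.IsPrimitive ∧ Q.2 ^ 2 = 1 ∧ ∀ p ∈ S, ¬ p ∣ Q.1

theorem twist_comm (p Q : Char) : twist p Q = twist Q p := by
  obtain ⟨N, χ⟩ := p
  obtain ⟨M, ψ⟩ := Q
  have key : ∀ (L L' : ℕ) (h : L = L') (h1 : N ∣ L) (h2 : M ∣ L) (h1' : N ∣ L') (h2' : M ∣ L'),
      (⟨L, DirichletCharacter.changeLevel h1 χ * DirichletCharacter.changeLevel h2 ψ⟩ : Char) =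
      ⟨L', DirichletCharacter.changeLevel h2' ψ * DirichletCharacter.changeLevel h1' χ⟩ := by
    intro L L' h h1 h2 h1' h2'
    subst h
    rw [mul_comm]
  exact key _ _ (Nat.lcm_comm N M) (Nat.dvd_lcm_left N M) (Nat.dvd_lcm_right N M)
    (Nat.dvd_lcm_right M N) (Nat.dvd_lcm_left M N)

theorem twister_of (S : Finset ℕ) (h2 : 2 ∈ S) (c : ℕ → ℤ) (hc : ∀ p ∈ S, c p = 1 ∨ c p = -1)
    (hS : ∀ p ∈ S, p.Prime) (s : ℤ) (p : Char) (hp : p ∈ Family S c s) : Twister S p := by
  obtain ⟨h3, h4, h5, h6, h7, h8⟩ := hp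
  have key : ∀ q ∈ S, ¬ q ∣ p.1 := by
    intro q hq hd
    have h9 : p.2 (q : ZMod p.1) ≠ 0 := by
      rw [h8 q hq]
      rcases hc q hq with h | h <;> rw [h] <;> norm_num
    have h10 : IsUnit (q : ZMod p.1) := by
      by_contra h
      exact h9 (p.2.map_nonunit h)
    rw [ZMod.isUnit_iff_coprime] at h10
    have h11 := Nat.Coprime.eq_one_of_dvd h10 hd
    exact (hS q hq).one_lt.ne' h11
  refine ⟨?_, h4, h5, key⟩
  rw [← Nat.not_even_iff_odd, even_iff_two_dvd]
  exact key 2 h2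

/-- the members of conductor at most `X` -/
def cl (S : Finset ℕ) (c : ℕ → ℤ) (s : ℤ) (X : ℕ) : Set Char :=
  {p | p ∈ Family S c s ∧ p.1 ≤ X}

theorem cl_eq (S : Finset ℕ) (c : ℕ → ℤ) (s : ℤ) (X : ℕ) :
    cl S c s X = Pool.Agent.H306R2.RG.LnkC.RPC ∩
      (Pool.Agent.W161.LF.CL S c s ∩ {p | p.1 ≤ X}) := by
  ext p
  simp only [cl, Family, Pool.Agent.H306R2.RG.LnkC.RPC, Pool.Agent.W161.LF.CL, Set.mem_inter_iff,
    Set.mem_ofPred_eq]
  tauto

open Classical in
/-- what is needed from the starting files -/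
theorem base (S : Finset ℕ) (hS : ∀ p ∈ S, p.Prime) (c : ℕ → ℤ)
    (hc : ∀ p ∈ S, c p = 0 ∨ c p = 1 ∨ c p = -1) (s : ℤ) (hs : s = 1 ∨ s = -1) :
    ∃ P : ℕ → Finset Char, (∀ X p, p ∈ P X ↔ (p ∈ Family S c s ∧ p.1 ≤ X)) ∧
      (∃ κ : ℝ, 0 < κ ∧ ∀ᶠ X : ℕ in atTop, κ * (X : ℝ) ≤ ((P X).card : ℝ)) ∧
      (∀ᶠ X : ℕ in atTop, (8645 / 10000 : ℝ) * ((P X).card : ℝ) ≤
        (((P X).filter (fun p => Positive p)).card : ℝ)) ∧
      ∀ Q : Char, Twister S Q → ∀ᶠ X : ℕ in atTop, (8649 / 10000 : ℝ) * ((P X).card : ℝ) ≤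
        (((P X).filter (fun p => Positive (twist p Q))).card : ℝ) := by
  obtain ⟨h1, ⟨κ, N1, hκ, h2⟩, ⟨N2, h3⟩⟩ := Pool.Agent.W161.LF.mainA S hS c hc s hs
  have hfin : ∀ X : ℕ, (cl S c s X).Finite := fun X => by rw [cl_eq]; exact h1 X
  have hcard : ∀ X : ℕ, ((cl S c s X).ncard : ℝ) = ((hfin X).toFinset.card : ℝ) := fun X => by
    rw [Set.ncard_eq_toFinset_card _ (hfin X)]
  have hcardf : ∀ (X : ℕ) (q : Char → Prop), ((cl S c s X ∩ {p | q p}).ncard : ℝ) =
      (((hfin X).toFinset.filter q).card : ℝ) := by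
    intro X q
    rw [← Set.ncard_coe_finset]
    congr 2
    ext p
    simp
  refine ⟨fun X => (hfin X).toFinset, fun X p => by simp [cl], ⟨κ, hκ, ?_⟩, ?_, ?_⟩
  · filter_upwards [eventually_ge_atTop N1] with X hX
    rw [← hcard, cl_eq]
    exact h2 X hX
  · filter_upwards [eventually_ge_atTop N2] with X hX
    rw [← hcard, ← hcardf]
    have e2 : cl S c s X ∩ {p | Positive p} = Pool.Agent.H306R2.RG.LnkC.RPC ∩
        ((Pool.Agent.W161.LF.CL S c s ∩ {p | p.1 ≤ X}) ∩
          {p | Pool.Agent.H306R2.RG.LnkC.POS p}) := by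
      rw [cl_eq, Set.inter_assoc]
      rfl
    rw [e2, cl_eq]
    exact h3 X hX
  · rintro Q ⟨q1, q2, q3, q4⟩
    obtain ⟨N, hN⟩ := Pool.Agent.TH863.LQ.main1 S hS c hc s Q q1 q2 q3 q4
    filter_upwards [eventually_ge_atTop N] with X hX
    rw [← hcard, ← hcardf]
    have e2 : cl S c s X ∩ {p | Positive (twist p Q)} = Pool.Agent.H306R2.RG.LnkC.RPC ∩
        ((Pool.Agent.W161.LF.CL S c s ∩ {p | p.1 ≤ X}) ∩
          {p | Pool.Agent.H306R2.RG.LnkC.POS (Pool.Agent.TH863.LQ.tws p Q)}) := by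
      rw [cl_eq, Set.inter_assoc]
      rfl
    rw [e2, cl_eq]
    exact hN X hX

/-- **Theorem.** Let `S` be a finite set of primes with `2 ∈ S`, let `c p, c' p ∈ {1, -1}` for `p ∈ S`
and `s, s' ∈ {1, -1}`. There are infinite sets `A`, `B` of nontrivial primitive quadratic characters
with `χ(p) = c p` for `p ∈ S`, `χ(-1) = s` for `χ ∈ A` and `ψ(p) = c' p` for `p ∈ S`, `ψ(-1) = s'` for
`ψ ∈ B`, such that `L(s,χ)`, `L(s,ψ)` and `L(s,χψ)` are positive on `(0,1)` for all `χ ∈ A` and all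
`ψ ∈ B`. Moreover, for every finite `F ⊆ B` there is `κ > 0` such that for infinitely many `X` there
are at least `κ X` nontrivial primitive quadratic characters `χ` of conductor at most `X` with
`χ(p) = c p` for `p ∈ S`, `χ(-1) = s` such that `L(s,χ)` and all the functions `L(s,χψ)`, `ψ ∈ F`,
are positive on `(0,1)`. -/
theorem result :
    ∀ S : Finset ℕ, (∀ p ∈ S, p.Prime) → 2 ∈ S → ∀ c c' : ℕ → ℤ,
      (∀ p ∈ S, c p = 1 ∨ c p = -1) → (∀ p ∈ S, c' p = 1 ∨ c' p = -1) →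
      ∀ s s' : ℤ, (s = 1 ∨ s = -1) → (s' = 1 ∨ s' = -1) →
      ∃ A B : Set Char, A.Infinite ∧ B.Infinite ∧ A ⊆ Family S c s ∧ B ⊆ Family S c' s' ∧
        (∀ χ ∈ A, Positive χ) ∧ (∀ ψ ∈ B, Positive ψ) ∧
        (∀ χ ∈ A, ∀ ψ ∈ B, Positive (twist χ ψ)) ∧
        ∀ F : Finset Char, ↑F ⊆ B → ∃ κ : ℝ, 0 < κ ∧ ∃ᶠ X : ℕ in atTop, κ * (X : ℝ) ≤
          ({χ : Char | χ ∈ Family S c s ∧ χ.1 ≤ X ∧ Positive χ ∧
            ∀ ψ ∈ F, Positive (twist χ ψ)}.ncard : ℝ) := by
  classical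
  intro S hS h2 c c' hc hc' s s' hs hs'
  obtain ⟨P, hP1, ⟨κ, hκ, hP2⟩, hP3, hP4⟩ := base S hS c (fun p hp => Or.inr (hc p hp)) s hs
  obtain ⟨Q, hQ1, ⟨κ', hκ', hQ2⟩, hQ3, hQ4⟩ := base S hS c' (fun p hp => Or.inr (hc' p hp)) s' hs'
  have lim : ∀ (P : ℕ → Finset Char) (κ : ℝ), 0 < κ →
      (∀ᶠ X : ℕ in atTop, κ * (X : ℝ) ≤ ((P X).card : ℝ)) →
      (∀ᶠ X : ℕ in atTop, (8645 / 10000 : ℝ) * ((P X).card : ℝ) ≤
        (((P X).filter (fun p => Positive p)).card : ℝ)) →
      Tendsto (fun X => (((P X).filter (fun p => Positive p)).card : ℝ)) atTop atTop := by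
    intro P κ hκ h3 h4
    have h5 : Tendsto (fun X : ℕ => (8645 / 10000 * κ) * (X : ℝ)) atTop atTop :=
      tendsto_natCast_atTop_atTop.const_mul_atTop (by positivity)
    refine tendsto_atTop_mono' _ ?_ h5
    filter_upwards [h3, h4] with X h6 h7
    nlinarith
  have dens : ∀ (P : Finset Char) (q : Char → Prop),
      (8645 / 10000 : ℝ) * (P.card : ℝ) ≤ ((P.filter (fun p => Positive p)).card : ℝ) →
      (8649 / 10000 : ℝ) * (P.card : ℝ) ≤ ((P.filter q).card : ℝ) →
      (8 / 10 : ℝ) * ((P.filter (fun p => Positive p)).card : ℝ) ≤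
        (((P.filter (fun p => Positive p)).filter q).card : ℝ) := by
    intro P q h3 h4
    have h7 := Finset.card_union_add_card_inter (P.filter (fun p => Positive p)) (P.filter q)
    have h8 : (P.filter (fun p => Positive p) ∪ P.filter q).card ≤ P.card :=
      Finset.card_le_card (Finset.union_subset (Finset.filter_subset _ _)
        (Finset.filter_subset _ _))
    have h9 : P.filter (fun p => Positive p) ∩ P.filter q =
        (P.filter (fun p => Positive p)).filter q := by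
      ext a
      simp only [Finset.mem_inter, Finset.mem_filter]
      tauto
    rw [h9] at h7
    have h10 : (P.filter (fun p => Positive p)).card + (P.filter q).card ≤
      ((P.filter (fun p => Positive p)).filter q).card + P.card := by omega
    have h11 : ((P.filter (fun p => Positive p)).card : ℝ) + ((P.filter q).card : ℝ) ≤
      (((P.filter (fun p => Positive p)).filter q).card : ℝ) + (P.card : ℝ) := by
      exact_mod_cast h10
    have h12 : (0 : ℝ) ≤ (P.card : ℝ) := Nat.cast_nonneg _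
    nlinarith
  obtain ⟨a, b, ha, hb, ha2, hb2, hab, hF⟩ := Pool.Agent.Q51.Grid.grid
    (fun X => (P X).filter (fun p => Positive p)) (fun X => (Q X).filter (fun p => Positive p))
    (fun χ ψ => Positive (twist χ ψ)) (8 / 10) (by norm_num) (lim P κ hκ hP2 hP3)
    (lim Q κ' hκ' hQ2 hQ3) (by
      intro m ψ hψ
      rw [Finset.mem_filter] at hψ
      have hT := twister_of S h2 c' hc' hS s' ψ ((hQ1 m ψ).1 hψ.1).1
      filter_upwards [hP3, hP4 ψ hT] with X h3 h4
      exact dens (P X) _ h3 h4) (by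
      intro m χ hχ
      rw [Finset.mem_filter] at hχ
      have hT := twister_of S h2 c hc hS s χ ((hP1 m χ).1 hχ.1).1
      filter_upwards [hQ3, hQ4 χ hT] with X h3 h4
      simp only [twist_comm χ]
      exact dens (Q X) _ h3 h4)
  refine ⟨Set.range a, Set.range b, Set.infinite_range_of_injective ha,
    Set.infinite_range_of_injective hb, ?_, ?_, ?_, ?_, ?_, ?_⟩
  · rintro _ ⟨i, rfl⟩
    obtain ⟨m, hm⟩ := ha2 i
    exact ((hP1 _ _).1 (Finset.mem_filter.1 hm).1).1
  · rintro _ ⟨i, rfl⟩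
    obtain ⟨m, hm⟩ := hb2 i
    exact ((hQ1 _ _).1 (Finset.mem_filter.1 hm).1).1
  · rintro _ ⟨i, rfl⟩
    obtain ⟨m, hm⟩ := ha2 i
    exact (Finset.mem_filter.1 hm).2
  · rintro _ ⟨i, rfl⟩
    obtain ⟨m, hm⟩ := hb2 i
    exact (Finset.mem_filter.1 hm).2
  · rintro _ ⟨i, rfl⟩ _ ⟨j, rfl⟩
    exact hab i j
  · intro F hFB
    obtain ⟨c1, hc1, h3⟩ := hF (F.preimage b hb.injOn)
    refine ⟨c1 * (8645 / 10000 * κ), by positivity, ?_⟩
    refine (h3.and_eventually (hP2.and hP3)).mono ?_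
    rintro X ⟨h4, h5, h6⟩
    have e1 : {χ : Char | χ ∈ Family S c s ∧ χ.1 ≤ X ∧ Positive χ ∧
        ∀ ψ ∈ F, Positive (twist χ ψ)} =
        ((((P X).filter (fun p => Positive p)).filter
          (fun χ => ∀ j ∈ F.preimage b hb.injOn, Positive (twist χ (b j))) : Finset Char) :
          Set Char) := by
      ext p
      simp only [Set.mem_ofPred_eq, Finset.coe_filter, Finset.mem_filter, hP1,
        Finset.mem_preimage]
      constructor
      · rintro ⟨h7, h8, h9, h10⟩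
        exact ⟨⟨⟨h7, h8⟩, h9⟩, fun j hj => h10 _ hj⟩
      · rintro ⟨⟨⟨h7, h8⟩, h9⟩, h10⟩
        refine ⟨h7, h8, h9, fun ψ hψ => ?_⟩
        obtain ⟨j, rfl⟩ := hFB hψ
        exact h10 j hψ
    rw [e1, Set.ncard_coe_finset]
    calc c1 * (8645 / 10000 * κ) * (X : ℝ) = c1 * (8645 / 10000 * (κ * X)) := by ring
      _ ≤ c1 * (8645 / 10000 * ((P X).card : ℝ)) := by gcongr
      _ ≤ c1 * (((P X).filter (fun p => Positive p)).card : ℝ) := by gcongr
      _ ≤ _ := h4

end Pool.Agent.Results.MP_0016c7_nt.InfiniteGrids
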