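import Mathlib
import Pool.Agent.Q27.LB.Far
import Pool.Agent.W169.RT.Gen
import Pool.Agent.W973.QP.TG
import Pool.Agent.W215.QP.Fe
import Pool.Agent.W305.QP.Rel
import Pool.Agent.H423R2.RGL.FGF
import Pool.Agent.H423R2.RGL.CGF
import Pool.Agent.H423R2.RGL.DEN
import Pool.Agent.H423R2.RGL.GRW

set_option autoImplicit false

/-!
# Lower bounds for the values of quadratic Dirichlet L-functions off the central point
-/

namespace Pool.Agent.Results.MP_0016c7_nt.LowerBoundOffSmallSet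

/-- The pairs `(N, χ)`, `1 ≤ N ≤ X`, with `χ` a nontrivial primitive quadratic Dirichlet character
modulo `N`. -/
def Quadratic (X : ℕ) : Set (Σ N : ℕ, DirichletCharacter ℂ N) :=
  {p | (p.1 ≠ 0 ∧ p.2.IsPrimitive ∧ p.2 ^ 2 = 1 ∧ p.2 ≠ 1) ∧ p.1 ≤ X}

/-- For every `σ` with `0 < σ ≤ 1` and `|σ - 1/2| ≥ R / log X` the value `L(σ, χ)` is real and at
least `σ exp (-R) / (log X) ^ m`. -/
def Large (m : ℕ) (X : ℕ) (R : ℝ) (p : Σ N : ℕ, DirichletCharacter ℂ N) : Prop :=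
  ∃ _ : NeZero p.1, ∀ σ : ℝ, 0 < σ → σ ≤ 1 → R / Real.log X ≤ |σ - 1 / 2| →
    (DirichletCharacter.LFunction p.2 (σ : ℂ)).im = 0 ∧
      σ * Real.exp (-R) / Real.log X ^ m ≤ (DirichletCharacter.LFunction p.2 (σ : ℂ)).re

open Pool.Agent.H306R2.RZ Pool.Agent.H306R2.RG

/-- **Theorem.** There is an exponent `m` such that for all but a proportion `C exp (-c R)` of the
real primitive characters `χ` of conductor at most `X` one has
`L(σ, χ) ≥ σ exp (-R) / (log X) ^ m` for all `σ` in `(0, 1]` with `|σ - 1/2| ≥ R / log X`. -/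
theorem result : ∃ (m : ℕ) (C c : ℝ), 0 < C ∧ 0 < c ∧ ∀ (X : ℕ) (R : ℝ), 2 ≤ X → 0 ≤ R →
    R ≤ Real.log X / 2 → (Quadratic X).Finite ∧
      ((Quadratic X ∩ {p | ¬ Large m X R p}).ncard : ℝ) ≤
        C * Real.exp (-(c * R)) * ((Quadratic X).ncard : ℝ) := by
  obtain ⟨m, hm⟩ := Pool.Agent.Q27.LB.main_far Pool.Agent.W973.QP.tg LnkA.FGF LnkC.CGF
    (fun φ hφ d hd L hL => Pool.Agent.W169.QP.Nn_pos Pool.Agent.W215.QP.fe
      Pool.Agent.W305.QP.rel hφ (LnkC.CGF φ hφ) hd hL)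
  obtain ⟨-, hG⟩ := LnkD.GRW LnkC.CGF (LnkC.DEN (F8 1) ⟨1, Or.inl rfl, Or.inl rfl⟩)
  obtain ⟨C, c, hC, hc, h⟩ := Pool.Agent.W169.RT.prop_gen
    (fun X R p => Pool.Agent.Q27.LB.LowB m X R p) hm hG
  exact ⟨m, C, c, hC, hc, fun X R hX hR hRX => h X R hX hR hRX⟩

end Pool.Agent.Results.MP_0016c7_nt.LowerBoundOffSmallSet
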