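import Mathlib
import Pool.Agent.W161.LF.Asm
import Pool.Agent.TH863.LQ.Tw
import Pool.Agent.Q144.MqLemmas

set_option autoImplicit false

/-!
# Real zeros in `(0,1)`: multiquadratic fields and infinite chains of quadratic characters

We construct infinite sequences of real primitive characters `χ_0, χ_1, …` of odd conductor, with
prescribed parities and prescribed values at finitely many primes, such that for every `k` most of the
`2^k - 1` functions `L(s, ∏_{i ∈ F} χ_i)`, `F` a nonempty subset of `{0, …, k - 1}`, and moreover all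
of those of a prescribed sparse family of sets `F`, are positive on `(0,1)`. In other words: towers of
multiquadratic fields of degree `2^k` most of whose quadratic subfields (all of those of prescribed
ones) have no real zeros in `(0,1)`.
-/

namespace Pool.Agent.Results.MP_0016c7_nt.MultiquadraticChains

open Pool.Agent.Q144.Mq

/-- The pairs `(N, χ)` with `1 ≤ N ≤ X` and `χ` a nontrivial primitive quadratic Dirichlet
character modulo `N` such that `χ(-1) = s` and `χ(p) = c p` for all `p ∈ S`. -/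
def Class (S : Finset ℕ) (c : ℕ → ℤ) (s : ℤ) (X : ℕ) : Set QChar :=
  {p | p.1 ≠ 0 ∧ p.1 ≤ X ∧ p.2.IsPrimitive ∧ p.2 ^ 2 = 1 ∧ p.2 ≠ 1 ∧ p.2 (-1) = (s : ℂ) ∧
    ∀ q ∈ S, p.2 (q : ZMod p.1) = (c q : ℂ)}

/-- The values prescribed at the primes of `S` are `1` or `-1`, and `s` is a sign. -/
def Pm (S : Finset ℕ) (c : ℕ → ℤ) (s : ℤ) : Prop :=
  (∀ p ∈ S, c p = 1 ∨ c p = -1) ∧ (s = 1 ∨ s = -1)

/-- The product of the characters `χ i`, `i ∈ F`, a character modulo the least common multiple of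
their moduli. -/
noncomputable def prodOver (χ : ℕ → QChar) (F : Finset ℕ) : QChar :=
  prod ((F.sort (· ≥ ·)).map χ)

theorem prodOver_congr {χ χ' : ℕ → QChar} {F : Finset ℕ} (h : ∀ i ∈ F, χ i = χ' i) :
    prodOver χ F = prodOver χ' F := by
  unfold prodOver
  congr 1
  refine List.map_congr_left fun i hi => h i ?_
  exact (Finset.mem_sort _).1 hi

theorem prodOver_insert (χ : ℕ → QChar) {F : Finset ℕ} {n : ℕ} (h : ∀ i ∈ F, i < n) :
    prodOver χ (insert n F) = twist (χ n) (prodOver χ F) := by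
  unfold prodOver
  rw [Finset.sort_insert (r := (· ≥ ·)) (fun b hb => (h b hb).le) (fun hn => (h n hn).false)]
  rfl

theorem class_ok {S : Finset ℕ} (hS : ∀ p ∈ S, p.Prime) (h2 : 2 ∈ S) {c : ℕ → ℤ} {s : ℤ}
    (hc : Pm S c s) {X : ℕ} {p : QChar} (hp : p ∈ Class S c s X) : Ok S p := by
  obtain ⟨h0, -, -, hsq, -, -, hv⟩ := hp
  have hco : ∀ q ∈ S, ¬ q ∣ p.1 := by
    intro q hq hd
    have h3 : ¬ IsUnit (q : ZMod p.1) := by
      rw [ZMod.isUnit_iff_coprime]
      intro h4
      have := Nat.Coprime.eq_one_of_dvd h4 hd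
      exact (hS q hq).one_lt.ne' this
    have h4 := hv q hq
    rw [MulChar.map_nonunit p.2 h3] at h4
    rcases hc.1 q hq with h5 | h5 <;> rw [h5] at h4 <;> norm_num at h4
  refine ⟨h0, ?_, hsq, hco⟩
  rw [← Nat.not_even_iff_odd]
  exact fun he => hco 2 h2 he.two_dvd

theorem prodOver_ok {S : Finset ℕ} (hS : ∀ p ∈ S, p.Prime) {χ : ℕ → QChar} {F : Finset ℕ}
    (h : ∀ i ∈ F, Ok S (χ i)) : Ok S (prodOver χ F) := by
  refine ok_prod hS _ fun ψ hψ => ?_
  obtain ⟨i, hi, rfl⟩ := List.mem_map.1 hψ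
  exact h i ((Finset.mem_sort _).1 hi)

/-- one twist -/
theorem one {S : Finset ℕ} (hS : ∀ p ∈ S, p.Prime) {c : ℕ → ℤ} {s : ℤ} (hc : Pm S c s) :
    (∀ X : ℕ, (Class S c s X).Finite) ∧
    (∃ κ : ℝ, 0 < κ ∧ ∃ X0 : ℕ, ∀ X : ℕ, X0 ≤ X → κ * (X : ℝ) ≤ ((Class S c s X).ncard : ℝ)) ∧
    ∀ Q : QChar, Ok S Q → ∃ X0 : ℕ, ∀ X : ℕ, X0 ≤ X →
      (8649 / 10000 : ℝ) * ((Class S c s X).ncard : ℝ) ≤
        ((Class S c s X ∩ {p | Positive (twist p Q)}).ncard : ℝ) := by
  classical
  have hc' : ∀ p ∈ S, c p = 0 ∨ c p = 1 ∨ c p = -1 := fun p hp => Or.inr (hc.1 p hp)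
  obtain ⟨h1, ⟨κ, N1, hκ, hκ2⟩, -⟩ := Pool.Agent.W161.LF.mainA S hS c hc' s hc.2
  have e1 : ∀ X : ℕ, Class S c s X = Pool.Agent.H306R2.RG.LnkC.RPC ∩
      (Pool.Agent.W161.LF.CL S c s ∩ {p | p.1 ≤ X}) := by
    intro X
    ext p
    simp only [Class, Pool.Agent.H306R2.RG.LnkC.RPC, Pool.Agent.W161.LF.CL, Set.mem_inter_iff,
      Set.mem_ofPred_eq]
    tauto
  have hfin : ∀ X : ℕ, (Class S c s X).Finite := fun X => by rw [e1]; exact h1 X
  refine ⟨hfin, ⟨κ, hκ, N1, fun X hX => by rw [e1]; exact hκ2 X hX⟩, ?_⟩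
  intro Q hQ
  obtain ⟨q1, q2, q3, q4⟩ := prim_ok hQ
  obtain ⟨N, hN⟩ := Pool.Agent.TH863.LQ.main1 S hS c hc' s (prim Q) q1 q2 q3 q4
  refine ⟨N, fun X hX => ?_⟩
  have e2 : Class S c s X ∩ {p | Positive (twist p (prim Q))} =
      Pool.Agent.H306R2.RG.LnkC.RPC ∩
      ((Pool.Agent.W161.LF.CL S c s ∩ {p | p.1 ≤ X}) ∩
        {p | Pool.Agent.H306R2.RG.LnkC.POS (Pool.Agent.TH863.LQ.tws p (prim Q))}) := by
    rw [e1, Set.inter_assoc]
    rfl
  have h4 := hN X hX
  rw [← e2, ← e1] at h4
  refine h4.trans ?_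
  have hsub : Class S c s X ∩ {p | Positive (twist p (prim Q))} ⊆
      Class S c s X ∩ {p | Positive (twist p Q)} := by
    rintro p ⟨hp, hpos⟩
    exact ⟨hp, positive_of_prim hp.1 hQ.ne hp.2.2.2.1 hQ.sq hpos⟩
  exact_mod_cast Set.ncard_le_ncard hsub ((hfin X).inter_of_left _)

open Classical in
/-- a good character of large conductor, with weights -/
theorem exists_large {S : Finset ℕ} (hS : ∀ p ∈ S, p.Prime) {c : ℕ → ℤ} {s : ℤ}
    (hc : Pm S c s) {ι : Type} (T : Finset ι) (w : ι → ℝ) (hw : ∀ i ∈ T, 0 ≤ w i) (Q : ι → QChar)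
    (hQ : ∀ i ∈ T, Ok S (Q i)) (B : ℕ) :
    ∃ p : QChar, p ∈ Class S c s p.1 ∧ B < p.1 ∧
      ∑ i ∈ T, (if Positive (twist p (Q i)) then 0 else w i) ≤ 1351 / 10000 * ∑ i ∈ T, w i := by
  obtain ⟨hfin, ⟨κ, hκ, N1, h1⟩, h3⟩ := one hS hc
  by_contra hcon
  push Not at hcon
  set τ : ℝ := 1351 / 10000 * ∑ i ∈ T, w i with hτ
  have hτ0 : 0 ≤ τ := mul_nonneg (by norm_num) (Finset.sum_nonneg hw)
  -- the gap
  obtain ⟨δ, hδ, hgap⟩ : ∃ δ : ℝ, 0 < δ ∧ ∀ A ∈ T.powerset, τ < ∑ i ∈ A, w i →
      τ + δ ≤ ∑ i ∈ A, w i := by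
    by_cases hne : (T.powerset.filter fun A => τ < ∑ i ∈ A, w i).Nonempty
    · obtain ⟨A0, hA0, hmin⟩ := Finset.exists_min_image _ (fun A => ∑ i ∈ A, w i) hne
      refine ⟨∑ i ∈ A0, w i - τ, sub_pos.2 (Finset.mem_filter.1 hA0).2, fun A hA h => ?_⟩
      have := hmin A (Finset.mem_filter.2 ⟨hA, h⟩)
      linarith
    · refine ⟨1, one_pos, fun A hA h => absurd ⟨A, Finset.mem_filter.2 ⟨hA, h⟩⟩ hne⟩
  have hf : ∀ p : QChar, p ∈ Class S c s p.1 → B < p.1 →
      τ + δ ≤ ∑ i ∈ T, (if Positive (twist p (Q i)) then 0 else w i) := by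
    intro p hp hB
    have e : ∑ i ∈ T, (if Positive (twist p (Q i)) then 0 else w i) =
        ∑ i ∈ T.filter (fun i => ¬ Positive (twist p (Q i))), w i := by
      rw [Finset.sum_filter]
      exact Finset.sum_congr rfl fun i _ => by split_ifs <;> rfl
    have h := hcon p hp hB
    rw [e] at h ⊢
    exact hgap _ (Finset.mem_powerset.2 (Finset.filter_subset _ _)) h
  -- choice of the bound
  have h3' : ∀ i, ∃ X0 : ℕ, i ∈ T → ∀ X : ℕ, X0 ≤ X →
      (8649 / 10000 : ℝ) * ((Class S c s X).ncard : ℝ) ≤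
        ((Class S c s X ∩ {p | Positive (twist p (Q i))}).ncard : ℝ) := by
    intro i
    by_cases hi : i ∈ T
    · obtain ⟨X0, h⟩ := h3 (Q i) (hQ i hi)
      exact ⟨X0, fun _ => h⟩
    · exact ⟨0, fun h => absurd h hi⟩
  choose N hN using h3'
  obtain ⟨X1, hX1⟩ := exists_nat_gt ((τ + δ) * ((Class S c s B).ncard : ℝ) / (δ * κ))
  set X := X1 + (N1 + ∑ i ∈ T, N i) with hX
  have hX' : ∀ i ∈ T, N i ≤ X := fun i hi =>
    (Finset.single_le_sum (f := N) (fun _ _ => Nat.zero_le _) hi).trans (by omega)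
  set W := (hfin X).toFinset with hW
  have hcard : ((Class S c s X).ncard : ℝ) = (W.card : ℝ) := by
    rw [Set.ncard_eq_toFinset_card _ (hfin X)]
  have hcardf : ∀ p : QChar → Prop, ((Class S c s X ∩ {q | p q}).ncard : ℝ) =
      ((W.filter p).card : ℝ) := by
    intro p
    rw [← Set.ncard_coe_finset]
    congr 2
    ext q
    simp [hW]
  have hup : ∑ p ∈ W, ∑ i ∈ T, (if Positive (twist p (Q i)) then 0 else w i) ≤ τ * W.card := by
    rw [Finset.sum_comm, hτ, mul_assoc, mul_comm (∑ i ∈ T, w i), ← mul_assoc, Finset.mul_sum]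
    refine Finset.sum_le_sum fun i hi => ?_
    have h6 := hN i hi X (hX' i hi)
    rw [hcard, hcardf] at h6
    have h7 : ((W.filter (fun p => Positive (twist p (Q i)))).card : ℝ) +
        ((W.filter (fun p => ¬ Positive (twist p (Q i)))).card : ℝ) = W.card := by
      exact_mod_cast Finset.card_filter_add_card_filter_not (s := W)
        (fun p => Positive (twist p (Q i)))
    have e : ∑ p ∈ W, (if Positive (twist p (Q i)) then 0 else w i) =
        ((W.filter (fun p => ¬ Positive (twist p (Q i)))).card : ℝ) * w i := by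
      rw [← nsmul_eq_mul, ← Finset.sum_const, Finset.sum_filter]
      exact Finset.sum_congr rfl fun p _ => by split_ifs <;> rfl
    rw [e]
    have h8 : ((W.filter (fun p => ¬ Positive (twist p (Q i)))).card : ℝ) ≤
        1351 / 10000 * W.card := by linarith
    exact mul_le_mul_of_nonneg_right h8 (hw i hi)
  have hB : ((W.filter (fun p => ¬ B < p.1)).card : ℝ) ≤ ((Class S c s B).ncard : ℝ) := by
    have e : ((W.filter (fun p => ¬ B < p.1)).card : ℝ) =
        ((Class S c s X ∩ {q | ¬ B < q.1}).ncard : ℝ) := by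
      rw [hcardf]
      congr!
    rw [e]
    have hsub : Class S c s X ∩ {q | ¬ B < q.1} ⊆ Class S c s B := by
      rintro p ⟨hp, hpB⟩
      exact ⟨hp.1, not_lt.1 hpB, hp.2.2⟩
    exact_mod_cast Set.ncard_le_ncard hsub (hfin B)
  have hlow : (τ + δ) * ((W.filter (fun p => B < p.1)).card : ℝ) ≤
      ∑ p ∈ W, ∑ i ∈ T, (if Positive (twist p (Q i)) then 0 else w i) := by
    have h6 : (τ + δ) * ((W.filter (fun p => B < p.1)).card : ℝ) =
        ∑ _p ∈ W.filter (fun p => B < p.1), (τ + δ) := by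
      rw [Finset.sum_const, nsmul_eq_mul, mul_comm]
    rw [h6]
    refine (Finset.sum_le_sum fun p hp => ?_).trans
      (Finset.sum_le_sum_of_subset_of_nonneg (Finset.filter_subset (fun p => B < p.1) W)
        fun p _ _ => Finset.sum_nonneg fun i hi => ?_)
    · rw [Finset.mem_filter, hW, Set.Finite.mem_toFinset] at hp
      exact hf p ⟨hp.1.1, le_refl _, hp.1.2.2⟩ hp.2
    · split_ifs
      · exact le_refl _
      · exact hw i hi
  have h7 : ((W.filter (fun p => B < p.1)).card : ℝ) +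
      ((W.filter (fun p => ¬ B < p.1)).card : ℝ) = W.card := by
    exact_mod_cast Finset.card_filter_add_card_filter_not (s := W) (fun p => B < p.1)
  have h8 := h1 X (by omega)
  rw [hcard] at h8
  have h9 : (X1 : ℝ) ≤ X := by exact_mod_cast (by omega : X1 ≤ X)
  rw [div_lt_iff₀ (by positivity)] at hX1
  have h10 : δ * W.card ≤ (τ + δ) * ((Class S c s B).ncard : ℝ) := by nlinarith
  have h11 : δ * (κ * X1) ≤ δ * W.card := by
    refine mul_le_mul_of_nonneg_left ?_ hδ.le
    exact (mul_le_mul_of_nonneg_left h9 hκ.le).trans h8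
  nlinarith

open Classical in
/-- The total weight of the sets `F ⊆ {0, …, n - 1}` for which `L(s, χ_n ∏_{i ∈ F} χ_i)` is not
positive on `(0,1)`. -/
noncomputable def bad (w : ℕ → Finset ℕ → ℝ) (χ : ℕ → QChar) (n : ℕ) : ℝ :=
  ∑ F ∈ (Finset.range n).powerset, if Positive (prodOver χ (insert n F)) then 0 else w n F

/-- sequences of characters, construction by recursion -/
theorem chain {S : Finset ℕ} (hS : ∀ p ∈ S, p.Prime) (h2 : 2 ∈ S) (c : ℕ → ℕ → ℤ) (s : ℕ → ℤ)
    (hc : ∀ n, Pm S (c n) (s n)) (w : ℕ → Finset ℕ → ℝ) (hw : ∀ n F, 0 ≤ w n F) :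
    ∃ χ : ℕ → QChar, ∀ n, χ n ∈ Class S (c n) (s n) (χ n).1 ∧
      ∏ i ∈ Finset.range n, (χ i).1 < (χ n).1 ∧
      bad w χ n ≤ 1351 / 10000 * ∑ F ∈ (Finset.range n).powerset, w n F := by
  classical
  -- the condition at `n`
  let C : (ℕ → QChar) → ℕ → Prop := fun χ n => χ n ∈ Class S (c n) (s n) (χ n).1 ∧
      ∏ i ∈ Finset.range n, (χ i).1 < (χ n).1 ∧
      bad w χ n ≤ 1351 / 10000 * ∑ F ∈ (Finset.range n).powerset, w n F
  have hcongr : ∀ (χ χ' : ℕ → QChar) (n : ℕ), (∀ i ≤ n, χ i = χ' i) → C χ n → C χ' n := by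
    rintro χ χ' n h ⟨h1, h3, h4⟩
    refine ⟨by rw [← h n le_rfl]; exact h1, ?_, ?_⟩
    · rw [← h n le_rfl]
      rwa [Finset.prod_congr rfl fun i hi => by
        rw [← h i (Finset.mem_range.1 hi).le]]
    · refine le_of_eq_of_le ?_ h4
      unfold bad
      refine Finset.sum_congr rfl fun F hF => ?_
      rw [prodOver_congr (χ := χ) (χ' := χ')]
      intro i hi
      rcases Finset.mem_insert.1 hi with rfl | hi
      · exact h _ le_rfl
      · exact h i (Finset.mem_range.1 (Finset.mem_powerset.1 hF hi)).le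
  have hext : ∀ (n : ℕ) (χ : ℕ → QChar), (∀ i < n, C χ i) → ∃ x : QChar,
      C (Function.update χ n x) n := by
    intro n χ h
    have hok : ∀ i < n, Ok S (χ i) := fun i hi => class_ok hS h2 (hc i) (h i hi).1
    obtain ⟨x, hx1, hx2, hx3⟩ := exists_large hS (hc n) (Finset.range n).powerset (w n)
      (fun F _ => hw n F) (fun F => prodOver χ F)
      (fun F hF => prodOver_ok hS fun i hi => hok i (Finset.mem_range.1
        (Finset.mem_powerset.1 hF hi)))
      (∏ i ∈ Finset.range n, (χ i).1)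
    refine ⟨x, ?_, ?_, ?_⟩
    · rw [Function.update_self]
      exact hx1
    · rw [Function.update_self]
      refine lt_of_eq_of_lt (Finset.prod_congr rfl fun i hi => ?_) hx2
      rw [Function.update_of_ne (Finset.mem_range.1 hi).ne]
    · refine le_of_eq_of_le ?_ hx3
      unfold bad
      refine Finset.sum_congr rfl fun F hF => ?_
      have hF' : ∀ i ∈ F, i < n := fun i hi => Finset.mem_range.1 (Finset.mem_powerset.1 hF hi)
      rw [prodOver_insert _ hF', Function.update_self]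
      have e : prodOver (Function.update χ n x) F = prodOver χ F :=
        prodOver_congr fun i hi => Function.update_of_ne (hF' i hi).ne _ _
      rw [e]
  -- recursion
  choose! x hx using hext
  let H : ℕ → (ℕ → QChar) := fun n =>
    Nat.rec (fun _ => ⟨1, 1⟩) (fun n χ => Function.update χ n (x n χ)) n
  have hH1 : ∀ n, H (n + 1) = Function.update (H n) n (x n (H n)) := fun n => rfl
  have hagree : ∀ n m, n < m → ∀ i ≤ n, H m i = H (n + 1) i := by
    intro n m hnm
    induction m, hnm using Nat.le_induction with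
    | base => intro i _; rfl
    | succ m hm ih =>
      intro i hi
      rw [hH1, Function.update_of_ne (by omega)]
      exact ih i hi
  have hgood : ∀ n, ∀ i < n, C (H n) i := by
    intro n
    induction n with
    | zero => intro i hi; omega
    | succ n ih =>
      intro i hi
      rcases Nat.lt_succ_iff_lt_or_eq.1 hi with h | rfl
      · refine hcongr (H n) _ i (fun j hj => ?_) (ih i h)
        rw [hH1, Function.update_of_ne (by omega)]
      · rw [hH1]
        exact hx i (H i) ih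
  refine ⟨fun n => H (n + 1) n, fun n => ?_⟩
  have hfinal : C (fun n => H (n + 1) n) n := by
    refine hcongr (H (n + 1)) (fun n => H (n + 1) n) n (fun i hi => ?_)
      (hgood (n + 1) n (Nat.lt_succ_self n))
    rcases hi.lt_or_eq with h | rfl
    · exact hagree i (n + 1) (by omega) i le_rfl
    · rfl
  exact hfinal

/-- The number of the nonempty sets `F ⊆ {0, …, k - 1}` for which `L(s, ∏_{i ∈ F} χ_i)` is not
positive on `(0,1)`. -/
noncomputable def Failures (χ : ℕ → QChar) (k : ℕ) : ℕ :=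
  {F : Finset ℕ | F ⊆ Finset.range k ∧ F.Nonempty ∧ ¬ Positive (prodOver χ F)}.ncard

/-- at least a proportion of the products is good, at every level -/
theorem level {χ : ℕ → QChar} {w : ℕ → Finset ℕ → ℝ} {δ : ℝ}
    (h1 : ∀ n, ∀ F ∈ (Finset.range n).powerset, 1 ≤ w n F)
    (h : ∀ n, bad w χ n ≤ δ * 2 ^ n) (k : ℕ) :
    (Failures χ k : ℝ) ≤ δ * (2 ^ k - 1) := by
  classical
  have hcard : ∀ n, (((Finset.range n).powerset.filter
      (fun F => ¬ Positive (prodOver χ (insert n F)))).card : ℝ) ≤ δ * 2 ^ n := by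
    intro n
    refine le_trans ?_ (h n)
    unfold bad
    rw [Finset.card_eq_sum_ones, Finset.sum_filter, Nat.cast_sum]
    refine Finset.sum_le_sum fun F hF => ?_
    by_cases hp : Positive (prodOver χ (insert n F))
    · simp [hp]
    · simpa [hp] using h1 n F hF
  have e : ∀ k, {F : Finset ℕ | F ⊆ Finset.range k ∧ F.Nonempty ∧ ¬ Positive (prodOver χ F)} =
      ↑((Finset.range k).powerset.filter
        (fun F => F.Nonempty ∧ ¬ Positive (prodOver χ F))) := by
    intro k
    ext F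
    simp
  rw [Failures, e, Set.ncard_coe_finset]
  induction k with
  | zero =>
    have : ((Finset.range 0).powerset.filter
        (fun F => F.Nonempty ∧ ¬ Positive (prodOver χ F))) = ∅ := by
      rw [Finset.filter_eq_empty_iff]
      intro F hF h
      rw [Finset.mem_powerset, Finset.range_zero, Finset.subset_empty] at hF
      subst hF
      exact Finset.not_nonempty_empty h.1
    rw [this]
    simp
  | succ k ih =>
    have hsub : (Finset.range (k + 1)).powerset.filter
        (fun F => F.Nonempty ∧ ¬ Positive (prodOver χ F)) ⊆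
        (Finset.range k).powerset.filter (fun F => F.Nonempty ∧ ¬ Positive (prodOver χ F)) ∪
        ((Finset.range k).powerset.filter
          (fun F => ¬ Positive (prodOver χ (insert k F)))).image (insert k) := by
      intro F hF
      rw [Finset.mem_filter, Finset.mem_powerset] at hF
      obtain ⟨hF1, hF2, hF3⟩ := hF
      rw [Finset.mem_union]
      by_cases hk : k ∈ F
      · right
        rw [Finset.mem_image]
        refine ⟨F.erase k, ?_, Finset.insert_erase hk⟩
        rw [Finset.mem_filter, Finset.mem_powerset, Finset.insert_erase hk]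
        refine ⟨fun i hi => ?_, hF3⟩
        obtain ⟨hi1, hi2⟩ := Finset.mem_erase.1 hi
        have := Finset.mem_range.1 (hF1 hi2)
        rw [Finset.mem_range]
        omega
      · left
        rw [Finset.mem_filter, Finset.mem_powerset]
        refine ⟨fun i hi => ?_, hF2, hF3⟩
        have h3 := Finset.mem_range.1 (hF1 hi)
        have h4 : i ≠ k := fun h => hk (h ▸ hi)
        rw [Finset.mem_range]
        omega
    have h5 := (Finset.card_le_card hsub).trans (Finset.card_union_le _ _)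
    have h6 : ((((Finset.range k).powerset.filter
          (fun F => ¬ Positive (prodOver χ (insert k F)))).image (insert k)).card : ℝ) ≤
        δ * 2 ^ k := by
      refine le_trans ?_ (hcard k)
      exact_mod_cast Finset.card_image_le
    have h7 : ((((Finset.range (k + 1)).powerset.filter
        (fun F => F.Nonempty ∧ ¬ Positive (prodOver χ F)))).card : ℝ) ≤
        (((Finset.range k).powerset.filter
          (fun F => F.Nonempty ∧ ¬ Positive (prodOver χ F))).card : ℝ) +
        ((((Finset.range k).powerset.filter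
          (fun F => ¬ Positive (prodOver χ (insert k F)))).image (insert k)).card : ℝ) := by
      exact_mod_cast h5
    rw [pow_succ]
    linarith

/-- towers with prescribed good products -/
theorem tower {S : Finset ℕ} (hS : ∀ p ∈ S, p.Prime) (h2 : 2 ∈ S) (c : ℕ → ℕ → ℤ) (s : ℕ → ℤ)
    (hc : ∀ n, Pm S (c n) (s n)) (a : ℕ) (δ : ℝ) (hδ0 : 0 < δ)
    (hδ : 1351 / 10000 * (1 + a * δ) < δ)
    (𝓕 : Set (Finset ℕ)) (h𝓕 : ∀ n, {F ∈ 𝓕 | n ∈ F ∧ ∀ i ∈ F, i ≤ n}.ncard ≤ a) :
    ∃ χ : ℕ → QChar, (∀ n, χ n ∈ Class S (c n) (s n) (χ n).1) ∧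
      (∀ n, ∏ i ∈ Finset.range n, (χ i).1 < (χ n).1) ∧
      (∀ F ∈ 𝓕, F.Nonempty → Positive (prodOver χ F)) ∧
      ∀ k, (Failures χ k : ℝ) ≤ δ * (2 ^ k - 1) := by
  classical
  have hw : ∀ (n : ℕ) (F : Finset ℕ), (1 : ℝ) ≤ 1 + (if insert n F ∈ 𝓕 then δ * 2 ^ n else 0) := by
    intro n F
    split_ifs
    · have : 0 < δ * 2 ^ n := by positivity
      linarith
    · norm_num
  obtain ⟨χ, hχ⟩ := chain hS h2 c s hc
    (fun n F => 1 + (if insert n F ∈ 𝓕 then δ * 2 ^ n else 0))
    (fun n F => zero_le_one.trans (hw n F))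
  have hfin : ∀ n, {F ∈ 𝓕 | n ∈ F ∧ ∀ i ∈ F, i ≤ n}.Finite := by
    intro n
    refine ((Finset.range (n + 1)).powerset.finite_toSet).subset ?_
    rintro F ⟨-, -, h⟩
    rw [Finset.mem_coe, Finset.mem_powerset]
    exact fun i hi => Finset.mem_range.2 (Nat.lt_succ_of_le (h i hi))
  have hcnt : ∀ n, ((Finset.range n).powerset.filter (fun F => insert n F ∈ 𝓕)).card ≤ a := by
    intro n
    refine le_trans ?_ (h𝓕 n)
    rw [← Set.ncard_coe_finset]
    refine Set.ncard_le_ncard_of_injOn (fun F => insert n F) ?_ ?_ (hfin n)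
    · intro F hF
      rw [Finset.mem_coe, Finset.mem_filter, Finset.mem_powerset] at hF
      refine ⟨hF.2, Finset.mem_insert_self _ _, fun i hi => ?_⟩
      rcases Finset.mem_insert.1 hi with rfl | hi
      · exact le_rfl
      · exact (Finset.mem_range.1 (hF.1 hi)).le
    · intro F hF G hG h
      rw [Finset.mem_coe, Finset.mem_filter, Finset.mem_powerset] at hF hG
      have hF' : n ∉ F := fun h => absurd (Finset.mem_range.1 (hF.1 h)) (lt_irrefl _)
      have hG' : n ∉ G := fun h => absurd (Finset.mem_range.1 (hG.1 h)) (lt_irrefl _)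
      have h' : insert n F = insert n G := h
      rw [← Finset.erase_insert hF', h', Finset.erase_insert hG']
  have hsum : ∀ n, ∑ F ∈ (Finset.range n).powerset,
      (1 + (if insert n F ∈ 𝓕 then δ * 2 ^ n else 0) : ℝ) ≤ 2 ^ n * (1 + a * δ) := by
    intro n
    rw [Finset.sum_add_distrib, ← Finset.sum_filter, Finset.sum_const, Finset.sum_const,
      Finset.card_powerset, Finset.card_range, nsmul_eq_mul, nsmul_eq_mul]
    have h1 : (((Finset.range n).powerset.filter (fun F => insert n F ∈ 𝓕)).card : ℝ) ≤ a := by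
      exact_mod_cast hcnt n
    have h3 : (0 : ℝ) ≤ δ * 2 ^ n := by positivity
    have h4 := mul_le_mul_of_nonneg_right h1 h3
    push_cast
    linarith
  have hbad : ∀ n, bad (fun n F => 1 + (if insert n F ∈ 𝓕 then δ * 2 ^ n else 0)) χ n <
      δ * 2 ^ n := by
    intro n
    have h1 := (hχ n).2.2
    have h3 := hsum n
    have h4 : (0 : ℝ) < 2 ^ n := by positivity
    have h5 : (1351 / 10000 : ℝ) * (2 ^ n * (1 + a * δ)) < δ * 2 ^ n := by nlinarith
    have h6 : (1351 / 10000 : ℝ) * ∑ F ∈ (Finset.range n).powerset,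
      (1 + (if insert n F ∈ 𝓕 then δ * 2 ^ n else 0) : ℝ) ≤
        1351 / 10000 * (2 ^ n * (1 + a * δ)) := mul_le_mul_of_nonneg_left h3 (by norm_num)
    exact lt_of_le_of_lt (h1.trans h6) h5
  refine ⟨χ, fun n => (hχ n).1, fun n => (hχ n).2.1, fun G hG hne => ?_, fun k =>
    level (fun n F _ => hw n F) (fun n => (hbad n).le) k⟩
  by_contra hneg
  have hmax := G.max'_mem hne
  set n := G.max' hne with hn
  have hmem : G.erase n ∈ (Finset.range n).powerset := by
    rw [Finset.mem_powerset]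
    intro i hi
    obtain ⟨hi1, hi2⟩ := Finset.mem_erase.1 hi
    exact Finset.mem_range.2 (lt_of_le_of_ne (G.le_max' i hi2) hi1)
  have hins : insert n (G.erase n) = G := Finset.insert_erase hmax
  have h1 : δ * 2 ^ n ≤ bad (fun n F => 1 + (if insert n F ∈ 𝓕 then δ * 2 ^ n else 0)) χ n := by
    unfold bad
    have h3 := Finset.single_le_sum (f := fun F => if Positive (prodOver χ (insert n F)) then (0 : ℝ)
      else 1 + (if insert n F ∈ 𝓕 then δ * 2 ^ n else 0)) (fun F _ => by
        split_ifs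
        · exact le_rfl
        · have : 0 < δ * 2 ^ n := by positivity
          linarith
        · norm_num) hmem
    refine le_trans ?_ h3
    rw [hins, if_neg hneg, if_pos hG]
    linarith
  exact absurd (hbad n) (not_lt.2 h1)

/-- **Theorem.** Let `S` be a finite set of primes with `2 ∈ S`, and let parities and values `±1` at
the primes of `S` be prescribed for every `n`. The sequences `χ_0, χ_1, …` below consist of primitive
quadratic characters with the prescribed parities and values at the primes of `S`, and the conductor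
of `χ_n` is larger than the product of all previous ones.

(1) For all weights `w n F ≥ 0` of the sets `F ⊆ {0, …, n - 1}` there is such a sequence for which,
for every `n`, the total weight of the `F` for which `L(s, χ_n ∏_{i ∈ F} χ_i)` is not positive on
`(0,1)` is at most `0.1351` times the total weight of all `F`.
(2) For some such sequence and every `k`, at least `86.49` percent of the `2 ^ k - 1` functions
`L(s, ∏_{i ∈ F} χ_i)`, `F` a nonempty subset of `{0, …, k - 1}`, are positive on `(0,1)`.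
(3) Let `0.1351 (1 + a δ) < δ`, and let `𝓕` be a set of finite sets of natural numbers such that
every `n` is the maximum of at most `a` members of `𝓕`. For some such sequence all the functions
`L(s, ∏_{i ∈ F} χ_i)` with nonempty `F ∈ 𝓕` are positive on `(0,1)`, and for every `k` all but at
most `δ (2 ^ k - 1)` of the nonempty `F ⊆ {0, …, k - 1}` have this property.
(4) For some such sequence this holds for every `n` for all seven products of one, two or three of the
characters `χ_n, χ_(n+1), χ_(n+2)`, and for every `k` for at least `70.6` percent of the `F`. -/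
theorem result (S : Finset ℕ) (hS : ∀ p ∈ S, p.Prime) (h2 : 2 ∈ S)
    (c : ℕ → ℕ → ℤ) (s : ℕ → ℤ) (hc : ∀ n, Pm S (c n) (s n)) :
    (∀ w : ℕ → Finset ℕ → ℝ, (∀ n F, 0 ≤ w n F) →
      ∃ χ : ℕ → QChar, (∀ n, χ n ∈ Class S (c n) (s n) (χ n).1) ∧
        (∀ n, ∏ i ∈ Finset.range n, (χ i).1 < (χ n).1) ∧
        ∀ n, bad w χ n ≤ 1351 / 10000 * ∑ F ∈ (Finset.range n).powerset, w n F) ∧
    (∃ χ : ℕ → QChar, (∀ n, χ n ∈ Class S (c n) (s n) (χ n).1) ∧
      (∀ n, ∏ i ∈ Finset.range n, (χ i).1 < (χ n).1) ∧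
      ∀ k, (Failures χ k : ℝ) ≤ 1351 / 10000 * (2 ^ k - 1)) ∧
    (∀ (a : ℕ) (δ : ℝ), 0 < δ → 1351 / 10000 * (1 + a * δ) < δ →
      ∀ 𝓕 : Set (Finset ℕ), (∀ n, {F ∈ 𝓕 | n ∈ F ∧ ∀ i ∈ F, i ≤ n}.ncard ≤ a) →
      ∃ χ : ℕ → QChar, (∀ n, χ n ∈ Class S (c n) (s n) (χ n).1) ∧
        (∀ n, ∏ i ∈ Finset.range n, (χ i).1 < (χ n).1) ∧
        (∀ F ∈ 𝓕, F.Nonempty → Positive (prodOver χ F)) ∧
        ∀ k, (Failures χ k : ℝ) ≤ δ * (2 ^ k - 1)) ∧
    (∃ χ : ℕ → QChar, (∀ n, χ n ∈ Class S (c n) (s n) (χ n).1) ∧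
      (∀ n, ∏ i ∈ Finset.range n, (χ i).1 < (χ n).1) ∧
      (∀ n, ∀ F ⊆ {n, n + 1, n + 2}, F.Nonempty → Positive (prodOver χ F)) ∧
      ∀ k, (Failures χ k : ℝ) ≤ 294 / 1000 * (2 ^ k - 1)) := by
  classical
  refine ⟨?_, ?_, fun a δ h0 h1 𝓕 h𝓕 => tower hS h2 c s hc a δ h0 h1 𝓕 h𝓕, ?_⟩
  · intro w hw
    obtain ⟨χ, hχ⟩ := chain hS h2 c s hc w hw
    exact ⟨χ, fun n => (hχ n).1, fun n => (hχ n).2.1, fun n => (hχ n).2.2⟩
  · obtain ⟨χ, hχ⟩ := chain hS h2 c s hc (fun _ _ => 1) (fun _ _ => zero_le_one)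
    refine ⟨χ, fun n => (hχ n).1, fun n => (hχ n).2.1, fun k => ?_⟩
    refine level (w := fun _ _ => 1) (fun _ _ _ => le_rfl) (fun n => ?_) k
    refine (hχ n).2.2.trans (le_of_eq ?_)
    rw [Finset.sum_const, Finset.card_powerset, Finset.card_range, nsmul_eq_mul]
    push_cast
    ring
  · -- subsets of `{n, n + 1, n + 2}`
    obtain ⟨χ, h1, h3, h4, h5⟩ := tower hS h2 c s hc 4 (294 / 1000) (by norm_num) (by norm_num)
      {F | ∃ n, F ⊆ {n, n + 1, n + 2}} (by
      intro m
      have hsub : {F ∈ {F : Finset ℕ | ∃ n, F ⊆ {n, n + 1, n + 2}} | m ∈ F ∧ ∀ i ∈ F, i ≤ m} ⊆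
          ↑(({m - 1, m - 2} : Finset ℕ).powerset.image fun G => insert m G) := by
        rintro F ⟨⟨n, hn⟩, hm, hle⟩
        rw [Finset.coe_image]
        refine ⟨F.erase m, ?_, Finset.insert_erase hm⟩
        rw [Finset.mem_coe, Finset.mem_powerset]
        intro i hi
        obtain ⟨hi1, hi2⟩ := Finset.mem_erase.1 hi
        have h5 := hn hi2
        have h6 := hn hm
        have h7 := hle i hi2
        simp only [Finset.mem_insert, Finset.mem_singleton] at h5 h6 ⊢
        omega
      refine (Set.ncard_le_ncard hsub (Finset.finite_toSet _)).trans ?_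
      rw [Set.ncard_coe_finset]
      refine Finset.card_image_le.trans ?_
      rw [Finset.card_powerset]
      exact (Nat.pow_le_pow_right (by norm_num) Finset.card_le_two).trans (by norm_num))
    exact ⟨χ, h1, h3, fun n F hF hne => h4 F ⟨n, hF⟩ hne, h5⟩

end Pool.Agent.Results.MP_0016c7_nt.MultiquadraticChains
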