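import Mathlib
import Pool.Agent.Q27.LB.Asm

set_option autoImplicit false

/-!
# A quantitative positivity theorem for quadratic Dirichlet L-functions on `(0, 1)`
-/

namespace Pool.Agent.Results.MP_0016c7_nt.QuantitativePositivity

/-- The pairs `(N, χ)`, `1 ≤ N ≤ X`, with `χ` a nontrivial primitive quadratic Dirichlet character
modulo `N`. -/
def Quadratic (X : ℕ) : Set (Σ N : ℕ, DirichletCharacter ℂ N) :=
  {p | (p.1 ≠ 0 ∧ p.2.IsPrimitive ∧ p.2 ^ 2 = 1 ∧ p.2 ≠ 1) ∧ p.1 ≤ X}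

/-- For every `σ` with `0 < σ ≤ 1` the value `L(σ, χ)` is real and at least `σ / (log X) ^ m`. -/
def Large (m : ℕ) (X : ℕ) (p : Σ N : ℕ, DirichletCharacter ℂ N) : Prop :=
  ∃ _ : NeZero p.1, ∀ σ : ℝ, 0 < σ → σ ≤ 1 →
    (DirichletCharacter.LFunction p.2 (σ : ℂ)).im = 0 ∧
      σ / Real.log X ^ m ≤ (DirichletCharacter.LFunction p.2 (σ : ℂ)).re

/-- **Theorem.** There is an exponent `m` such that for all large `X` at least `86.4%` of the real
primitive characters `χ` of conductor at most `X` satisfy `L(σ, χ) ≥ σ / (log X) ^ m` for all `σ`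
in `(0, 1]`, the central point included. -/
theorem result : ∃ m N : ℕ, ∀ X : ℕ, N ≤ X → (Quadratic X).Finite ∧
    (864 / 1000 : ℝ) * ((Quadratic X).ncard : ℝ) ≤
      ((Quadratic X ∩ {p | Large m X p}).ncard : ℝ) := by
  obtain ⟨m, N, h⟩ := Pool.Agent.Q27.LB.main_near
  exact ⟨m, N, fun X hX => h X hX⟩

end Pool.Agent.Results.MP_0016c7_nt.QuantitativePositivity
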